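import Mathlib
import Pool.Agent.TH826.PT.Fam
import Pool.Agent.TH841.PT.Fin1
import Pool.Agent.TH841.PM.Fin2
import Pool.Agent.TH841.PM.PenZ

/-!
# Tate-Shafarevich groups of abelian varieties: products of members of arbitrary pencils

`A_t = E_{1,t} × … × E_{g,t}`, where each `E_{j,t}` is either a member of a pencil of elliptic curves with
full rational 2-torsion (`j` not constant) twisted by an arbitrary polynomial, the differences of whose
roots have balanced numbers of irreducible factors, or the quadratic twist of a constant curve with full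
rational 2-torsion by the value of an arbitrary polynomial. There is one set `Z` of integers of density
zero, uniformly in all the intervals `(N, N + M]` with `|N| ≤ M ^ L`, such that over the `t` outside of `Z`
all the moments of `2 ^ rank * #Ш(A_t)[2 ^ k] ^ (1 / k)` are bounded, so that the proportion of the `t` for
which the sum of the rank of `A_t(ℚ)` and the corank of the 2-primary part of `Ш(A_t)` is at least `r`
decays faster than any exponential `A ^ (-r)`.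
-/

set_option autoImplicit false

namespace Pool.Agent.Results.MP_a43263_nt.ProductsOfPencils

open Finset Polynomial

open Pool.Agent.TH826.PT (ShaP ShaTorP HasDivP rkP)

/-- the curve `y² = x (x - A) (x - B)` over `ℚ` -/
def EQ (A B : ℤ) : WeierstrassCurve ℚ := ⟨0, -((A : ℚ) + B), 0, (A : ℚ) * B, 0⟩

/-- the quadratic twist `y² = x³ + d² A x + d³ B` of `y² = x³ + A x + B` over `ℚ` by `d` -/
def Tw (A B d : ℤ) : WeierstrassCurve ℚ := ⟨0, 0, 0, ((d ^ 2 * A : ℤ) : ℚ), ((d ^ 3 * B : ℤ) : ℚ)⟩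

/-- `W t : y² = x (x - D(t) u₀(t)) (x - D(t) u₁(t))`, where `u₀`, `u₁` and `u₂ = u₀ - u₁` are products of a
nonzero integer and of `n₀`, `n₁`, `n₂` irreducible polynomials of positive degree, the
`n₀ + n₁ + n₂` irreducible polynomials being pairwise non-associated, `D ≠ 0` is not divisible by any
of them, and `2 n_k < n₀ + n₁ + n₂` for `k = 0, 1, 2` -/
def IsPencil (W : ℤ → WeierstrassCurve ℚ) : Prop :=
  ∃ (n : Fin 3 → ℕ) (a : Fin 3 → ℤ) (f : ∀ k : Fin 3, Fin (n k) → ℤ[X]) (u : Fin 3 → ℤ[X]) (D : ℤ[X]),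
    (∀ k, a k ≠ 0 ∧ u k = C (a k) * ∏ j, f k j) ∧ u 0 - u 1 = u 2 ∧
    (∀ k j, Irreducible (f k j) ∧ 0 < (f k j).natDegree ∧ ¬ f k j ∣ D) ∧
    (∀ k j k' j', (⟨k, j⟩ : Σ k : Fin 3, Fin (n k)) ≠ ⟨k', j'⟩ → ¬ Associated (f k j) (f k' j')) ∧
    D ≠ 0 ∧ (∀ k, 2 * n k < n 0 + n 1 + n 2) ∧
    ∀ t, W t = EQ ((D * u 0).eval t) ((D * u 1).eval t)

/-- `W t` is the quadratic twist by `D(t)` of the elliptic curve
`y² = x³ + A x + B = (x - a) (x - b) (x - c)`, where `a`, `b`, `c` are integers and `D ≠ 0` -/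
def IsTwist (W : ℤ → WeierstrassCurve ℚ) : Prop :=
  ∃ (A B a b c : ℤ) (D : ℤ[X]), 4 * A ^ 3 + 27 * B ^ 2 ≠ 0 ∧
    (∀ x : ℤ, x ^ 3 + A * x + B = (x - a) * (x - b) * (x - c)) ∧ D ≠ 0 ∧
    ∀ t, W t = Tw A B (D.eval t)

open Classical in
/-- a set of density zero, uniformly in all short intervals -/
def DZ (Z : Set ℤ) : Prop := ∀ (L : ℕ) (ε : ℝ), 0 < ε → ∃ M0 : ℕ, ∀ (N : ℤ) (M : ℕ), M0 ≤ M →
  |N| ≤ (M : ℤ) ^ L → (((Ioc N (N + (M : ℤ))).filter (fun t => t ∈ Z)).card : ℝ) ≤ ε * M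

open Classical in
/-- the integers `t` with `N < t ≤ N + M` outside of `Z` -/
noncomputable def Par (Z : Set ℤ) (N : ℤ) (M : ℕ) : Finset ℤ :=
  (Ioc N (N + (M : ℤ))).filter (fun t => t ∉ Z)

lemma disc_EQ {A B : ℤ} (hA : A ≠ 0) (hB : B ≠ 0) (hAB : A ≠ B) : (EQ A B).Δ ≠ 0 := by
  have h : (EQ A B).Δ = 16 * ((A : ℚ) * B * (A - B)) ^ 2 := by
    simp only [EQ, WeierstrassCurve.Δ, WeierstrassCurve.b₂, WeierstrassCurve.b₄,
      WeierstrassCurve.b₆, WeierstrassCurve.b₈]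
    ring
  rw [h]
  have h1 : (A : ℚ) ≠ 0 := by exact_mod_cast hA
  have h2 : (B : ℚ) ≠ 0 := by exact_mod_cast hB
  have h3 : (A : ℚ) - B ≠ 0 := sub_ne_zero.2 (by exact_mod_cast hAB)
  positivity

lemma disc_Tw {A B d : ℤ} (hE : 4 * A ^ 3 + 27 * B ^ 2 ≠ 0) (hd : d ≠ 0) : (Tw A B d).Δ ≠ 0 := by
  have h : (Tw A B d).Δ = (((-16 * (d ^ 6 * (4 * A ^ 3 + 27 * B ^ 2)) : ℤ)) : ℚ) := by
    simp only [Tw, WeierstrassCurve.Δ, WeierstrassCurve.b₂, WeierstrassCurve.b₄,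
      WeierstrassCurve.b₆, WeierstrassCurve.b₈]
    push_cast
    ring
  rw [h]
  exact_mod_cast mul_ne_zero (by norm_num) (mul_ne_zero (pow_ne_zero _ hd) hE)

open Pool.Agent.TH841.SH (Bd) in
lemma fam_of (W : ℤ → WeierstrassCurve ℚ) (h : IsPencil W ∨ IsTwist W) :
    ∃ (Z : Set ℤ) (R : ℤ → ℝ), Pool.Agent.TH841.PM.DZ Z ∧ Pool.Agent.TH841.PM.MZ R Z ∧
      (∀ t, 0 ≤ R t) ∧ ∀ t, t ∉ Z → (W t).Δ ≠ 0 ∧ Bd (W t) (R t) := by
  classical
  rcases h with ⟨n, a, f, u, D, hu, hu2, hf, hf', hD, hn, hW⟩ | ⟨A, B, a, b, c, D, hE, he, hD, hW⟩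
  · have hirr : Pool.Agent.TH841.PT.Irr (Pool.Agent.TH841.TR.fp f) :=
      ⟨fun x => (hf x.1 x.2).1, fun x => (hf x.1 x.2).2.1, fun x y hxy => hf' x.1 x.2 y.1 y.2 hxy⟩
    have hUP : ∀ k, Pool.Agent.TH841.TR.UP a f k = u k := fun k => (hu k).2.symm
    obtain ⟨Z, hZ1, hZ2, hZ3⟩ := Pool.Agent.TH841.PM.penZ Pool.Agent.TH841.PM.tavz a f
      (fun k => (hu k).1) hirr (by rw [hUP, hUP, hUP]; exact hu2) D hD (fun k j => (hf k j).2.2) hn
    have h3 : ∀ t, t ∉ Z → (D * u 0).eval t ≠ 0 ∧ (D * u 1).eval t ≠ 0 ∧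
        (D * u 0).eval t ≠ (D * u 1).eval t := by
      intro t ht
      have h4 := hZ2 t ht
      have h5 := h4 2
      rw [hUP, ← hu2, mul_sub, eval_sub] at h5
      refine ⟨?_, ?_, sub_ne_zero.1 h5⟩
      · have := h4 0
        rwa [hUP] at this
      · have := h4 1
        rwa [hUP] at this
    refine ⟨Z, _, hZ1, hZ3, fun t => Pool.Agent.W307.SE.SN_nonneg _ _, fun t ht => ?_⟩
    obtain ⟨h4, h5, h6⟩ := h3 t ht
    refine ⟨?_, ?_⟩
    · rw [hW t]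
      exact disc_EQ h4 h5 h6
    · rw [hW t, hUP, hUP]
      exact Pool.Agent.TH841.PT.bd_EQ h4 h5 h6
  · obtain ⟨Z, hZ⟩ : ∃ Z : Set ℤ, Z = {t : ℤ | D.eval t = 0} := ⟨_, rfl⟩
    have hZ' : ∀ t, t ∉ Z → D.eval t ≠ 0 := by
      intro t ht h0
      exact ht (by rw [hZ]; exact h0)
    refine ⟨Z, fun t => ((Pool.Agent.W307.SE.SelR ((D.eval t) ^ 2 * A) ((D.eval t) ^ 3 * B)).ncard : ℝ),
      ?_, ?_, fun t => Nat.cast_nonneg _, fun t ht => ⟨?_, ?_⟩⟩
    · rw [hZ]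
      exact Pool.Agent.TH841.PM.dz_fin (Pool.Agent.TH841.PM.zeros_fin _ hD)
    · intro k L
      obtain ⟨C, hC⟩ := Pool.Agent.TH841.PT.sel_poly Pool.Agent.TH841.PT.avsq hE he D hD k L
      refine ⟨|C|, abs_nonneg _, fun N M hM hN => le_trans ?_ ((hC N M hM hN).trans
        (mul_le_mul_of_nonneg_right (le_abs_self C) (Nat.cast_nonneg _)))⟩
      refine sum_le_sum_of_subset_of_nonneg (fun t ht => ?_) fun t _ _ => by positivity
      rw [mem_filter] at ht ⊢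
      exact ⟨ht.1, hZ' t ht.2⟩
    · rw [hW t]
      exact disc_Tw hE (hZ' t ht)
    · rw [hW t]
      exact Pool.Agent.TH841.SH.bd_selR (Pool.Agent.TH639.SL.disc_tw (hZ' t ht) hE)
        (Pool.Agent.TH639.SL.roots_tw he _) (Pool.Agent.TH639.SL.sel_tw hE he (hZ' t ht)).1

open Classical in
/-- **Theorem.** Let `g ≥ 1` and let `W j : ℤ → WeierstrassCurve ℚ`, `1 ≤ j ≤ g`, be pencils `IsPencil` or
families of twists `IsTwist`, and `A_t` the `g`-dimensional abelian variety over `ℚ` that is the product of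
the curves `W j t`. There is a set `Z` of density zero, uniformly in short intervals, such that the
`W j t` are elliptic curves for `t ∉ Z` and for all `s` and `L` there is `C` such that for all
`M ≥ 1` and `|N| ≤ M ^ L` and the `t ∉ Z` with `N < t ≤ N + M`: the groups `Ш(A_t)[2 ^ k]` are finite,
the sum of `(2 ^ rank * #Ш(A_t)[2 ^ k] ^ (1 / k)) ^ s` is at most `C M` for all `k ≥ 1`, and at most
`C M / 2 ^ (s (r + q))` of these `A_t` have rank at least `r` and a subgroup `(ℚ₂ / ℤ₂) ^ q` in the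
Tate-Shafarevich group. -/
theorem result (g : ℕ) (hg : 1 ≤ g) (W : Fin g → ℤ → WeierstrassCurve ℚ)
    (hW : ∀ j, IsPencil (W j) ∨ IsTwist (W j)) :
    ∃ Z : Set ℤ, DZ Z ∧ (∀ t, t ∉ Z → ∀ j, (W j t).Δ ≠ 0) ∧
      ∀ s L : ℕ, ∃ C : ℝ, ∀ (N : ℤ) (M : ℕ), 1 ≤ M → |N| ≤ (M : ℤ) ^ L →
      (∀ t ∈ Par Z N M, ∀ k : ℕ, Finite (ShaTorP (fun j => W j t) (2 ^ k))) ∧
      (∀ k : ℕ, 1 ≤ k → ∑ t ∈ Par Z N M, ((2 : ℝ) ^ rkP (fun j => W j t) *
        (Nat.card (ShaTorP (fun j => W j t) (2 ^ k)) : ℝ) ^ ((1 : ℝ) / k)) ^ s ≤ C * M) ∧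
      ∀ r q : ℕ, (((Par Z N M).filter (fun t => r ≤ rkP (fun j => W j t) ∧
        HasDivP (fun j => W j t) q)).card : ℝ) ≤ C * M / 2 ^ (s * (r + q)) := by
  choose Z R hZ hR hR0 hB using fun j => fam_of (W j) (hW j)
  have hsub : ∀ j, Z j ⊆ ⋃ j ∈ (univ : Finset (Fin g)), Z j := fun j t ht => by
    simp only [Set.mem_iUnion]
    exact ⟨j, mem_univ _, ht⟩
  refine ⟨⋃ j ∈ (univ : Finset (Fin g)), Z j, Pool.Agent.TH841.PM.dz_iUnion _ _ fun j _ => hZ j,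
    fun t ht j => (hB j t fun h => ht (hsub j h)).1, fun s L => ?_⟩
  choose C _ hC using fun j => hR j (s * g) L
  refine ⟨∑ j, C j, fun N M hM hN => ?_⟩
  have hP : ∀ t ∈ Par (⋃ j ∈ (univ : Finset (Fin g)), Z j) N M, ∀ j, t ∉ Z j := fun t ht j h =>
    (mem_filter.1 ht).2 (hsub j h)
  have h := Pool.Agent.TH826.PT.familyP hg (Par (⋃ j ∈ (univ : Finset (Fin g)), Z j) N M)
    (fun t j => W j t) (fun t j => R j t) (fun j => C j * M) s
    (fun t ht j => (hB j t (hP t ht j)).2) (fun j => by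
      refine le_trans ?_ (hC j N M hM hN)
      refine sum_le_sum_of_subset_of_nonneg (fun t ht => ?_) fun t _ _ => pow_nonneg (hR0 j t) _
      exact mem_filter.2 ⟨(mem_filter.1 ht).1, hP t ht j⟩)
  rw [← Finset.sum_mul] at h
  exact h

end Pool.Agent.Results.MP_a43263_nt.ProductsOfPencils
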