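import Mathlib
import Pool.Agent.V1166.WI.Ell
import Pool.Agent.TH826.PT.Fam
import Pool.Agent.Results.MP_a43263_nt.ProductsOfTwists
import Pool.Agent.Results.MP_a43263_nt.PencilMoments

/-!
# Tate-Shafarevich groups of abelian varieties near the multiples of a random number

Let `v n ≥ 1` be any sequence of real numbers, for example `2 ^ n` or `2 ^ 2 ^ n`. There is a set of
measure zero such that the following holds for all the real numbers `α` outside of it.

* `A_t` is the product of the quadratic twists of any elliptic curves `E_1, …, E_g` over `ℚ` with full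
  rational 2-torsion by the values `D_1(t), …, D_g(t)` of any nonzero polynomials. For all `C` and all
  `ε > 0`: if `n` is large, then for ALL the integers `t` with `|t - α v n| ≤ n ^ C` and `D_j(t) ≠ 0`
  the number `2 ^ rank * #Ш(A_t)[2 ^ k] ^ (1 / k)` is at most `n ^ ε` for all `k ≥ 1`. So the 2-primary
  part of `Ш(A_t)` has at most `ε log₂ n` generators.
* `J_t` is the Jacobian of `y² = ∏ (x - u_i(t))`, `2 g + 1` polynomials `u_i`, the product of the
  differences of the `u_i` being squarefree over `ℚ` and the numbers of the factors of the differences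
  being balanced (if the numbers are equal, the condition is `2 ^ k ≤ 2 g`). If `n` is large, then for
  ALL the integers `t` with `|t - α v n| ≤ n ^ C` and distinct `u_i(t)`, the `k`-th powers of
  `(#(J_t(ℚ) / 2 ^ m) * #Ш(J_t)[2 ^ m]) ^ (1 / m)`, `m ≥ 1`, and of `2 ^ (rank + corank)` are at most
  `n ^ (C + 1 + ε)`, provided that `n ^ C ≤ v n` for large `n`.

The bounds depend on the index `n` only, however fast the sequence grows.
-/

set_option autoImplicit false

namespace Pool.Agent.Results.MP_a43263_nt.ShaWindows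

open MeasureTheory Filter Finset Polynomial

open Pool.Agent.TH826.PT (ShaP ShaTorP HasDivP rkP)
open Pool.Agent.Results.MP_a43263_nt.ProductsOfTwists (AV)
open Pool.Agent.Results.MP_a43263_nt.PencilMoments (Balanced Pairs diff val quo sha corank nf)
open Pool.Agent.Y723.SJ (ShaTorsion QuotQ)

/-- the product `A_t` of the twists by the `D_j(t)` for all `t` within `n ^ C` of `α * v n`,
`n` large -/
def TwistLaw (v : ℕ → ℝ) (α : ℝ) {g : ℕ} (A B : Fin g → ℤ) (D : Fin g → ℤ[X]) : Prop :=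
  ∀ (C : ℕ) (ε : ℝ), 0 < ε → ∀ᶠ n : ℕ in atTop, ∀ t : ℤ, |(t : ℝ) - α * v n| ≤ (n : ℝ) ^ C →
    (∀ j, (D j).eval t ≠ 0) →
      (∀ k : ℕ, 1 ≤ k → Finite (ShaTorP (AV A B D t) (2 ^ k)) ∧
        (2 : ℝ) ^ rkP (AV A B D t) *
          (Nat.card (ShaTorP (AV A B D t) (2 ^ k)) : ℝ) ^ ((1 : ℝ) / k) ≤ (n : ℝ) ^ ε) ∧
      ∀ q : ℕ, HasDivP (AV A B D t) q → (2 : ℝ) ^ (rkP (AV A B D t) + q) ≤ (n : ℝ) ^ ε

/-- the Jacobians `J_t` for all `t` within `n ^ C` of `α * v n`, `n` large -/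
def JacobianLaw (v : ℕ → ℝ) (α : ℝ) {g : ℕ} (u : Fin (2 * g + 1) → ℤ[X]) (k : ℕ) : Prop :=
  ∀ (C : ℕ) (ε : ℝ), 0 < ε → (∀ᶠ n : ℕ in atTop, (n : ℝ) ^ C ≤ v n) →
    ∀ᶠ n : ℕ in atTop, ∀ t : ℤ, |(t : ℝ) - α * v n| ≤ (n : ℝ) ^ C →
      Function.Injective (val u t) →
        (∀ m : ℕ, 1 ≤ m → Finite (ShaTorsion (val u t) (2 ^ m)) ∧ Finite (QuotQ (val u t) (2 ^ m)) ∧
          ((quo (2 ^ m) (val u t) * sha (2 ^ m) (val u t) : ℕ) : ℝ) ^ ((k : ℝ) / m) ≤
            (n : ℝ) ^ ((C : ℝ) + 1 + ε)) ∧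
        ((quo 2 (val u t) * 2 ^ corank (val u t) : ℕ) : ℝ) ^ k ≤ (n : ℝ) ^ ((C : ℝ) + 1 + ε)

/-- **Theorem.** Let `v n ≥ 1` be a sequence of real numbers. For almost all real numbers `α`:
(1) `TwistLaw` holds for all elliptic curves `E_j : y² = x³ + A_j x + B_j`, `1 ≤ j ≤ g`, with three
integer roots and all polynomials `D_j ≠ 0`: for all `C`, `ε > 0` and all large `n`, all the integers
`t` with `|t - α v n| ≤ n ^ C`, `D_j(t) ≠ 0`, satisfy
`2 ^ rank * #Ш(A_t)[2 ^ k] ^ (1 / k) ≤ n ^ ε` for all `k ≥ 1`, and `2 ^ (rank + q) ≤ n ^ ε` if `Ш(A_t)`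
has a subgroup `(ℚ₂ / ℤ₂) ^ q`; (2) `JacobianLaw` holds for all tuples `u` of `2 g + 1` polynomials,
`g ≥ 1`, and all `k ≥ 1` such that the product of the differences is squarefree over `ℚ` and `u` is
balanced for `2 ^ k`; in particular if all the differences have the same number of irreducible factors
and `2 ^ k ≤ 2 g`. -/
theorem result (v : ℕ → ℝ) (hv : ∀ n, 1 ≤ v n) : ∀ᵐ α : ℝ,
    (∀ (g : ℕ) (A B a b c : Fin g → ℤ), 1 ≤ g → (∀ j, 4 * A j ^ 3 + 27 * B j ^ 2 ≠ 0) →
      (∀ j, ∀ x : ℤ, x ^ 3 + A j * x + B j = (x - a j) * (x - b j) * (x - c j)) →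
      ∀ D : Fin g → ℤ[X], (∀ j, D j ≠ 0) → TwistLaw v α A B D) ∧
    ∀ (g k : ℕ) (u : Fin (2 * g + 1) → ℤ[X]), 1 ≤ g → 1 ≤ k →
      Squarefree (∏ c ∈ Pairs g, diff u c) →
      (Balanced u (2 ^ k) ∨ (∃ ν : ℕ, ∀ c ∈ Pairs g, nf u c = ν) ∧ 2 ^ k ≤ 2 * g) →
      JacobianLaw v α u k := by
  classical
  have := Pool.Agent.V1166.WI.countable_poly
  rw [eventually_and]
  constructor
  · rw [ae_all_iff]; intro g
    rw [ae_all_iff]; intro A
    rw [ae_all_iff]; intro B
    rw [ae_all_iff]; intro a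
    rw [ae_all_iff]; intro b
    rw [ae_all_iff]; intro c
    refine Pool.Agent.V1166.WI.ae_imp fun hg => Pool.Agent.V1166.WI.ae_imp fun hE =>
      Pool.Agent.V1166.WI.ae_imp fun he => ?_
    rw [ae_all_iff]; intro D
    refine Pool.Agent.V1166.WI.ae_imp fun hD => ?_
    have hj : ∀ j : Fin g, ∀ᵐ α : ℝ, ∀ (C : ℕ) (ε : ℝ), 0 < ε → ∀ᶠ n : ℕ in atTop, ∀ t : ℤ,
        |(t : ℝ) - α * v n| ≤ (n : ℝ) ^ C → (D j).eval t ≠ 0 →
          ((Pool.Agent.W307.SE.SelR (((D j).eval t) ^ 2 * A j)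
            (((D j).eval t) ^ 3 * B j)).ncard : ℝ) ≤ (n : ℝ) ^ ε := fun j =>
      Pool.Agent.V1166.WI.moments (P := fun t => (D j).eval t ≠ 0)
        (w := fun t => ((Pool.Agent.W307.SE.SelR (((D j).eval t) ^ 2 * A j)
          (((D j).eval t) ^ 3 * B j)).ncard : ℝ)) (fun t _ => Nat.cast_nonneg _)
        (Pool.Agent.V1166.WI.avg_twist (hE j) (he j) (D j) (hD j)) hv
    filter_upwards [ae_all_iff.2 hj] with α hα C ε hε
    have hg0 : (0 : ℝ) < g := by exact_mod_cast hg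
    have hall : ∀ᶠ n : ℕ in atTop, ∀ j : Fin g, ∀ t : ℤ,
        |(t : ℝ) - α * v n| ≤ (n : ℝ) ^ C → (D j).eval t ≠ 0 →
          ((Pool.Agent.W307.SE.SelR (((D j).eval t) ^ 2 * A j)
            (((D j).eval t) ^ 3 * B j)).ncard : ℝ) ≤ (n : ℝ) ^ (ε / g) :=
      eventually_all.2 fun j => hα j C (ε / g) (by positivity)
    filter_upwards [hall] with n hn t ht hDt
    have hbd : ∀ j, Pool.Agent.TH841.SH.Bd (AV A B D t j)
        ((Pool.Agent.W307.SE.SelR (((D j).eval t) ^ 2 * A j)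
          (((D j).eval t) ^ 3 * B j)).ncard : ℝ) := by
      intro j
      exact Pool.Agent.TH841.SH.bd_selR (Pool.Agent.TH639.SL.disc_tw (hDt j) (hE j))
        (Pool.Agent.TH639.SL.roots_tw (he j) _)
        (Pool.Agent.TH639.SL.sel_tw (hE j) (he j) (hDt j)).1
    obtain ⟨hfin, hle⟩ := Pool.Agent.TH826.PT.card_two (AV A B D t) _ hbd
    have hprod : ∏ j, ((Pool.Agent.W307.SE.SelR (((D j).eval t) ^ 2 * A j)
          (((D j).eval t) ^ 3 * B j)).ncard : ℝ) ≤ (n : ℝ) ^ ε := by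
      calc ∏ j, ((Pool.Agent.W307.SE.SelR (((D j).eval t) ^ 2 * A j)
            (((D j).eval t) ^ 3 * B j)).ncard : ℝ) ≤ ∏ _j : Fin g, (n : ℝ) ^ (ε / g) :=
            Finset.prod_le_prod (fun j _ => Nat.cast_nonneg _) fun j _ => hn j t ht (hDt j)
        _ = (n : ℝ) ^ ε := by
            rw [Finset.prod_const, Finset.card_univ, Fintype.card_fin, ← Real.rpow_natCast,
              ← Real.rpow_mul (Nat.cast_nonneg _), div_mul_cancel₀ _ hg0.ne']
    refine ⟨fun k hk => ⟨Pool.Agent.TH826.PT.fin_tor hfin k, ?_⟩, fun q hq => ?_⟩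
    · exact ((Pool.Agent.TH826.PT.wt_le hfin hk).trans hle).trans hprod
    · exact ((Pool.Agent.TH826.PT.div_le hfin le_rfl hq).trans hle).trans hprod
  · rw [ae_all_iff]; intro g
    rw [ae_all_iff]; intro k
    rw [ae_all_iff]; intro u
    refine Pool.Agent.V1166.WI.ae_imp fun hg => Pool.Agent.V1166.WI.ae_imp fun hk =>
      Pool.Agent.V1166.WI.ae_imp fun hsq => Pool.Agent.V1166.WI.ae_imp fun hbal0 => ?_
    have hbal : Balanced u (2 ^ k) := by
      rcases hbal0 with h | ⟨h1, h2⟩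
      · exact h
      · exact (PencilMoments.result g k hg hk u).1 h1 h2
    have hA : ∀ L : ℕ, Pool.Agent.V1166.WI.Avg (fun t => Function.Injective (val u t))
        (fun t => ((Pool.Agent.TH344.JG.SelJ (val u t)).ncard : ℝ) ^ k) L := by
      intro L
      refine Pool.Agent.V1166.WI.avg_of (fun t _ => by positivity) ?_
      obtain ⟨K, hK⟩ := PencilMoments.sel_bound hg hk u hbal (r := 0) Fin.elim0
        (fun i => i.elim0) (by simpa using hsq) L
      refine ⟨K, fun N M hM hN => ?_⟩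
      have h1 := hK N M hM hN
      rw [pow_zero, div_one] at h1
      refine le_trans (le_of_eq ?_) h1
      refine Finset.sum_congr ?_ fun _ _ => rfl
      ext t
      unfold PencilMoments.Args
      rw [mem_filter, mem_filter]
      exact ⟨fun h => ⟨h.1, h.2, fun i => i.elim0⟩, fun h => ⟨h.1, h.2.1⟩⟩
    filter_upwards [Pool.Agent.V1166.WI.average hA hv] with α hα C ε hε hC
    filter_upwards [hα C ε hε hC] with n hn t ht hinj
    have hS := hn t ht hinj
    refine ⟨fun m hm => ⟨(PencilMoments.curve hinj m).1, (PencilMoments.curve hinj m).2.1, ?_⟩, ?_⟩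
    · refine le_trans ?_ hS
      have h1 : ((quo (2 ^ m) (val u t) * sha (2 ^ m) (val u t) : ℕ) : ℝ) ≤
          ((Pool.Agent.TH344.JG.SelJ (val u t)).ncard : ℝ) ^ m := by
        exact_mod_cast (PencilMoments.curve hinj m).2.2.1
      have h2 := Real.rpow_le_rpow (Nat.cast_nonneg _) h1
        (by positivity : (0 : ℝ) ≤ (k : ℝ) / m)
      refine h2.trans (le_of_eq ?_)
      have hm0 : (m : ℝ) ≠ 0 := by exact_mod_cast (by omega : m ≠ 0)
      rw [← Real.rpow_natCast, ← Real.rpow_mul (Nat.cast_nonneg _), mul_div_cancel₀ _ hm0,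
        Real.rpow_natCast]
    · refine le_trans ?_ hS
      refine pow_le_pow_left₀ (Nat.cast_nonneg _) ?_ k
      exact_mod_cast (PencilMoments.curve hinj 0).2.2.2

end Pool.Agent.Results.MP_a43263_nt.ShaWindows
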