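import Mathlib
import Pool.Agent.Results.MP_a43263_nt.PencilTails
import Pool.Agent.V11109.MOM.Conv

/-!
# Jacobians in one-parameter families at the terms of sparse sequences

Let `p > 1` be a real number. There is a set `A₀` of real numbers of Hausdorff dimension smaller than
one such that the following holds for all `α > 0` outside `A₀`, with `t_j = ⌊α j ^ p⌋`, and all
families `J_t`, the Jacobian of `y² = ∏ (x - u_i(t))`, `i = 0, …, 2 g`, of any dimension `g`, for which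
the product of the differences of the polynomials `u_i` is squarefree and `u` is balanced (as in
the result `PencilTails`, for instance `u = (a_1, …, a_(2 g), x)` with distinct integers `a_i`, `g ≥ 2`):

* for almost all `j` the rank of `J_t(ℚ)`, `t = t_j`, and the group `Ш(J_t)[2 ^ ∞]` are bounded in the
  sense that the orders of `J_t(ℚ) / 2 ^ m` and `Ш(J_t)[2 ^ m]` are at most `2 ^ (R m)`;
* the upper density of the `j` for which the rank of `J_t(ℚ)` plus the corank of the 2-primary part of `Ш(J_t)` is at least `r`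
  decays faster than any exponential `A ^ (-r)`.
-/

set_option autoImplicit false

namespace Pool.Agent.Results.MP_a43263_nt.SparseJacobians

open Finset Polynomial

open Pool.Agent.Y723.SJ (ShaTorsion QuotQ)
open Pool.Agent.Results.MP_a43263_nt.PencilTails (val sha quo corank Pairs diff Balanced Large)
open Pool.Agent.V11109.MOM (cnt cnt_mono cnt_or int_sets)

/-- the terms of the sequence -/
noncomputable def term (p α : ℝ) (j : ℕ) : ℤ := ((⌊α * (j : ℝ) ^ p⌋₊ : ℕ) : ℤ)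

/-- `J_t`, the Jacobian of `y² = ∏ (x - u_i(t))`, is good: the values `u_i(t)` are distinct, the groups
`Ш(J_t)[2 ^ m]` and `J_t(ℚ) / 2 ^ m` are finite, the product of their orders is smaller than
`2 ^ (m R)` for all `m ≥ 1`, and `#(J_t(ℚ) / 2) * 2 ^ corank` is smaller than `2 ^ R`. -/
def Good {g : ℕ} (R : ℕ) (u : Fin (2 * g + 1) → ℤ[X]) (t : ℤ) : Prop :=
  Function.Injective (val u t) ∧
    (∀ m : ℕ, Finite (ShaTorsion (val u t) (2 ^ m)) ∧ Finite (QuotQ (val u t) (2 ^ m))) ∧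
    (∀ m : ℕ, 1 ≤ m → quo (2 ^ m) (val u t) * sha (2 ^ m) (val u t) < 2 ^ (m * R)) ∧
    quo 2 (val u t) * 2 ^ corank (val u t) < 2 ^ R

/-- almost all integers are good -/
lemma bad_density {g : ℕ} (hg : 1 ≤ g) (u : Fin (2 * g + 1) → ℤ[X])
    (hsq : Squarefree (∏ c ∈ Pairs g, diff u c)) (hbal : Balanced u) (ε : ℝ) (hε : 0 < ε) : by
    classical
    exact ∃ R X₀ : ℕ, ∀ X : ℕ, X₀ ≤ X → (((Ioc (0 : ℤ) (0 + (X : ℤ))).filter
      (fun t => t ∈ {t : ℤ | ¬ Good R u t})).card : ℝ) ≤ ε * X := by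
  classical
  obtain ⟨Z, hZ1, hZ2, -, hZ4⟩ := (PencilTails.result g hg u).2.2 hsq hbal
  obtain ⟨M0, hM0⟩ := hZ2 0 (ε / 2) (by positivity)
  obtain ⟨r0, hr0⟩ := hZ4 1 0 (ε / 2) (by positivity)
  obtain ⟨M1, hM1⟩ := hr0 r0 le_rfl
  refine ⟨r0, max M0 M1, fun X hX => ?_⟩
  have h1 := hM0 0 X ((le_max_left _ _).trans hX) (by simp)
  have h2 := hM1 0 X ((le_max_right _ _).trans hX) (by simp)
  rw [one_pow, one_mul] at h2
  have hsub : (Ioc (0 : ℤ) (0 + (X : ℤ))).filter (fun t => t ∈ {t : ℤ | ¬ Good r0 u t}) ⊆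
      (Ioc (0 : ℤ) (0 + (X : ℤ))).filter (fun t => t ∈ Z) ∪
        (Ioc (0 : ℤ) (0 + (X : ℤ))).filter (fun t => t ∈ Large u r0) := by
    intro t ht
    rw [Finset.mem_filter] at ht
    rw [Finset.mem_union, Finset.mem_filter, Finset.mem_filter]
    by_cases hZt : t ∈ Z
    · exact Or.inl ⟨ht.1, hZt⟩
    · refine Or.inr ⟨ht.1, ?_⟩
      by_contra hL
      obtain ⟨hinj, hfin⟩ := hZ1 t hZt
      refine ht.2 ⟨hinj, hfin, fun m hm => ?_, ?_⟩
      · by_contra hcon
        exact hL ⟨hinj, Or.inl ⟨m, hm, not_lt.1 hcon⟩⟩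
      · by_contra hcon
        exact hL ⟨hinj, Or.inr (not_lt.1 hcon)⟩
  have h3 := (Finset.card_le_card hsub).trans (Finset.card_union_le _ _)
  have h4 : (((Ioc (0 : ℤ) (0 + (X : ℤ))).filter (fun t => t ∈ {t : ℤ | ¬ Good r0 u t})).card : ℝ) ≤
      (((Ioc (0 : ℤ) (0 + (X : ℤ))).filter (fun t => t ∈ Z)).card : ℝ) +
        (((Ioc (0 : ℤ) (0 + (X : ℤ))).filter (fun t => t ∈ Large u r0)).card : ℝ) := by
    exact_mod_cast h3
  linarith

/-- **Main result.** For every real `p > 1` there is a set `A₀` of real numbers of Hausdorff dimension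
smaller than one such that, with `t_j = ⌊α j ^ p⌋`, for all `g ≥ 1` and all balanced `u` with squarefree
product of the differences: for every `ε > 0` there is `R` such that for all `α > 0` outside `A₀` and
all large `N` the member `J_t`, `t = t_j`, is good for all but at most `ε N` of the `j ≤ N`; for all `A` and `ε > 0`,
all large `r`, all `α > 0` outside `A₀` and all large `N` the number of the `j ≤ N` for which `t_j` is in
`Large u r` (as it is if the values are distinct and the rank of `J_t(ℚ)` plus the corank of the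
2-primary part of `Ш(J_t)` is at least `r`) is at most `ε N / A ^ r`. -/
theorem result (p : ℝ) (hp : 1 < p) : ∃ A₀ : Set ℝ, dimH A₀ < 1 ∧
    ∀ g : ℕ, 1 ≤ g → ∀ u : Fin (2 * g + 1) → ℤ[X],
      Squarefree (∏ c ∈ Pairs g, diff u c) → Balanced u →
      (∀ ε : ℝ, 0 < ε → ∃ R : ℕ, ∀ α : ℝ, 0 < α → α ∉ A₀ → ∃ N₀ : ℕ, ∀ N : ℕ, N₀ ≤ N →
        (cnt N (fun j => ¬ Good R u (term p α j)) : ℝ) ≤ ε * N) ∧
      ∀ A ε : ℝ, 0 < ε → ∃ r₀ : ℕ, ∀ r : ℕ, r₀ ≤ r → ∀ α : ℝ, 0 < α → α ∉ A₀ →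
        ∃ N₀ : ℕ, ∀ N : ℕ, N₀ ≤ N →
          A ^ r * (cnt N (fun j => term p α j ∈ Large u r) : ℝ) ≤ ε * N := by
  classical
  have hcp := Pool.Agent.V11109.TWI.countable_poly
  obtain ⟨A₁, hA₁, h₁⟩ := int_sets p hp
    (fun v : (Σ g : ℕ, (Fin (2 * g + 1) → ℤ[X]) × ℕ) => {t : ℤ | ¬ Good v.2.2 v.2.1 t})
  obtain ⟨A₂, hA₂, h₂⟩ := int_sets p hp
    (fun v : (Σ g : ℕ, (Fin (2 * g + 1) → ℤ[X]) × ℕ) => Large v.2.1 v.2.2)
  refine ⟨A₁ ∪ A₂, ?_, fun g hg u hsq hbal => ⟨fun ε hε => ?_, fun A ε hε => ?_⟩⟩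
  · rw [dimH_union]
    exact max_lt hA₁ hA₂
  · obtain ⟨R, X₀, hX₀⟩ := bad_density hg u hsq hbal (ε / 2) (by positivity)
    refine ⟨R, fun α hα hαA => ?_⟩
    obtain ⟨N₀, hN₀⟩ := h₁ α hα (fun h => hαA (Or.inl h)) ⟨g, u, R⟩ (ε / 2) (ε / 2) (by positivity)
      ⟨X₀, fun X hX => by
        refine le_trans (le_of_eq ?_) (hX₀ X hX)
        congr 2
        ext t
        simp only [Finset.mem_filter, Set.mem_ofPred_eq]⟩
    refine ⟨N₀, fun N hN => ?_⟩
    have := hN₀ N hN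
    rw [add_halves] at this
    exact this
  · set A' : ℝ := max |A| 1 with hA'
    have hA'1 : 1 ≤ A' := le_max_right _ _
    have hA'0 : 0 < A' := lt_of_lt_of_le one_pos hA'1
    obtain ⟨Z, -, -, -, hZ4⟩ := (PencilTails.result g hg u).2.2 hsq hbal
    obtain ⟨r0, hr0⟩ := hZ4 A' 0 (ε / 2) (by positivity)
    refine ⟨r0, fun r hr α hα hαA => ?_⟩
    obtain ⟨M0, hM0⟩ := hr0 r hr
    have hpow : 0 < A' ^ r := by positivity
    obtain ⟨N₀, hN₀⟩ := h₂ α hα (fun h => hαA (Or.inr h)) ⟨g, u, r⟩ (ε / 2 / A' ^ r) (ε / 2 / A' ^ r)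
      (by positivity) ⟨M0, fun X hX => by
        have h3 := hM0 0 X hX (by simp)
        rw [div_mul_eq_mul_div, le_div_iff₀ hpow, mul_comm]
        refine le_trans (le_of_eq ?_) h3
        congr 3⟩
    refine ⟨N₀, fun N hN => ?_⟩
    have h4 := hN₀ N hN
    rw [← add_div, add_halves, div_mul_eq_mul_div, le_div_iff₀ hpow] at h4
    have h5 : A ^ r ≤ A' ^ r := by
      calc A ^ r ≤ |A ^ r| := le_abs_self _
        _ = |A| ^ r := abs_pow _ _
        _ ≤ A' ^ r := pow_le_pow_left₀ (abs_nonneg _) (le_max_left _ _) r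
    calc A ^ r * (cnt N (fun j => term p α j ∈ Large u r) : ℝ)
        ≤ A' ^ r * (cnt N (fun j => term p α j ∈ Large u r) : ℝ) :=
          mul_le_mul_of_nonneg_right h5 (Nat.cast_nonneg _)
      _ = (cnt N (fun j => term p α j ∈ Large u r) : ℝ) * A' ^ r := mul_comm _ _
      _ ≤ ε * N := h4

end Pool.Agent.Results.MP_a43263_nt.SparseJacobians
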