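import Pool.Agent.Results.MP_dfae13_nt.ThreePartTwistsProportion

/-!
# Tate-Shafarevich groups of abelian varieties of dimension `2 * 3 ^ (k - 1)` over `ℚ`: the exact
# proportion with trivial `3`-primary part, in families with a fixed number of ramified primes

`K = ℚ(ω)`, `E : y² + y = x³`, `k ≥ 2`.  A member of the family is given by primes
`π 1, …, π m` of `ℤ[ω]`, congruent to `1` modulo `3`, whose norms are distinct prime numbers
congruent to `1` modulo `3 ^ (k + 1)`, and by characters `lam j` of exact order `3 ^ k` modulo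
`π j`.  The characters `lam j ^ 3 ^ (k - 1)` are the powers with exponents `e j` of the cubic residue
symbols, and `∏ π j ^ e j` must not be `1` modulo `9`.  `A` is the abelian variety over `K`, of
dimension `3 ^ (k - 1)`, that is the twist of `E ⊗ ℤ[ζ]`, `ζ` of order `3 ^ k`, by `χ = ∏ lam j`, and
`B` is its restriction of scalars to `ℚ`: `B(ℚ) = A(K)` and `Ш(B / ℚ) = Ш(A / K)`.

`ShaTrivial` : the `3`-primary part of `Ш(B / ℚ)` is zero, and `B(ℚ)` is finite, so that the
`3`-primary Selmer group of `B` is zero modulo torsion points.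

The members are ordered by `N(π 1 ⋯ π m)`.  There are `≍ X (log log X) ^ (m - 1) / log X` of them
up to `X`; the proportion of the connected ones tends to `∏_{i < m / 2} (1 - 3 ^ (-2 i - 1))`; and
`ShaTrivial` holds for all the connected members, hence for at least this proportion, which is larger
than `0.639`, of the members.  The same holds if the `π j` are taken from any dense set.

This is a consequence of the theorem of the file `ThreePartTwistsProportion` of problem
`MP_dfae13_nt`, which is about the leading term.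
-/

set_option autoImplicit false

open scoped Classical
open Filter Topology Pool.Agent.Y715.T.St

namespace Pool.Agent.Results.MP_a43263_nt.ThreePowerTwistsSha

open Pool.Agent.Results.MP_dfae13_nt.ThreePartTwistsProportion (Datum InFamily IsConnected count
  IsDense)

/-- `B(ℚ) = A(K)` is finite, and the `3`-primary part of `Ш(B / ℚ) = Ш(A / K)` is zero: each continuous
cocycle `f` of the absolute Galois group of `K` with values in `A` that is everywhere locally trivial
and for which `3 ^ n f` is a coboundary is a coboundary. -/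
def ShaTrivial (k : ℕ) {m : ℕ} (x : Datum m) : Prop :=
  ∀ ζ : ℂ, ζ ^ 3 ^ (k - 1) = omega → ∀ (i₀ : QBar), i₀ ^ 2 + i₀ + 1 = 0 →
    ∀ a : GalK i₀ → ZMod (3 ^ k), Corresponds ζ x.2 a → (pointsK a).Finite ∧
      ∀ (f : GalK i₀ → ZMod (3 ^ k) → Pts QBar) (n : ℕ), IsCocycle a f → LocallyTrivial a f →
        IsCoboundary a (fun σ => (3 ^ n) • f σ) → IsCoboundary a f

lemma shaTrivial_of {k m : ℕ} {x : Datum m}
    (h : Pool.Agent.Results.MP_dfae13_nt.ThreePartTwistsProportion.BSDThree k x) :
    ShaTrivial k x := by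
  intro ζ hζ i₀ hi a ha
  obtain ⟨⟨T, h5, -, h6⟩, h7⟩ := (h ζ hζ).2 i₀ hi a ha
  refine ⟨?_, h7⟩
  rw [h6]
  exact Set.toFinite _

/-- **The number of the members, the proportion of the connected ones, and the `3`-primary part of the
Tate-Shafarevich group for them.** -/
theorem result (k m : ℕ) (hk : 2 ≤ k) (hm : 1 ≤ m) :
    -- the connected members
    (∀ x : Datum m, InFamily Set.univ k x → IsConnected k x → ShaTrivial k x) ∧
    -- the set of all primes is dense
    IsDense k Set.univ ∧
    ∀ S : Set Eis, IsDense k S →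
      -- the number of the members
      (∃ (c C : ℝ) (X₀ : ℕ), 0 < c ∧ 0 < C ∧ ∀ X : ℕ, X₀ ≤ X →
        c * (X * Real.log (Real.log X) ^ (m - 1) / Real.log X) ≤
          (count (m := m) (InFamily S k) X : ℝ) ∧
        (count (m := m) (InFamily S k) X : ℝ) ≤
          C * (X * Real.log (Real.log X) ^ (m - 1) / Real.log X)) ∧
      -- the proportion of the connected ones
      Tendsto (fun X : ℕ => (count (m := m) (fun x => InFamily S k x ∧ IsConnected k x) X : ℝ) /
        (count (m := m) (InFamily S k) X : ℝ)) atTop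
        (𝓝 (∏ i ∈ Finset.range (m / 2), (1 - 1 / 3 ^ (2 * i + 1) : ℝ))) ∧
      -- the proportion of the members with `ShaTrivial` is at least this
      ∀ ε : ℝ, 0 < ε → ∃ X₀ : ℕ, ∀ X : ℕ, X₀ ≤ X →
        (∏ i ∈ Finset.range (m / 2), (1 - 1 / 3 ^ (2 * i + 1) : ℝ) - ε) *
          (count (m := m) (InFamily S k) X : ℝ) ≤
          (count (m := m) (fun x => InFamily S k x ∧ ShaTrivial k x) X : ℝ) := by
  obtain ⟨a1, a2, a3⟩ :=
    Pool.Agent.Results.MP_dfae13_nt.ThreePartTwistsProportion.result k m hk hm
  refine ⟨fun x h1 h2 => shaTrivial_of (a1 x h1 h2), a2, fun S hS => ?_⟩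
  obtain ⟨b1, b2, b3⟩ := a3 S hS
  refine ⟨b1, b2, fun ε hε => ?_⟩
  obtain ⟨X₀, hX₀⟩ := b3 ε hε
  obtain ⟨c, C, X₁, hc, -, hX₁⟩ := b1
  refine ⟨max (max X₀ X₁) 16, fun X hX => (hX₀ X (by omega)).trans ?_⟩
  have hpos : 0 < count (m := m) (InFamily S k) X := by
    have h1 := (hX₁ X (by omega)).1
    have h2 : (16 : ℝ) ≤ X := by exact_mod_cast (le_max_right _ _).trans hX
    have h3 : 1 < Real.log X := by
      rw [Real.lt_log_iff_exp_lt (by linarith)]
      have := Real.exp_one_lt_d9
      linarith
    have h4 : 0 < Real.log (Real.log X) := Real.log_pos h3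
    have h5 : 0 < c * (X * Real.log (Real.log X) ^ (m - 1) / Real.log X) := by
      have h6 : (0 : ℝ) < X := by linarith
      positivity
    exact_mod_cast h5.trans_le h1
  have hfin0 : Finite {x : Datum m // InFamily S k x ∧ ∏ j, nrm (x.1 j) ≤ X} :=
    Nat.finite_of_card_ne_zero hpos.ne'
  have hfin : Finite {x : Datum m // (InFamily S k x ∧ ShaTrivial k x) ∧
      ∏ j, nrm (x.1 j) ≤ X} := by
    refine Finite.of_injective (fun x => (⟨x.1, x.2.1.1, x.2.2⟩ :
      {x : Datum m // InFamily S k x ∧ ∏ j, nrm (x.1 j) ≤ X})) ?_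
    intro x y h
    exact Subtype.ext (Subtype.mk.inj h)
  have h8 : count (m := m) (fun x => InFamily S k x ∧
      Pool.Agent.Results.MP_dfae13_nt.ThreePartTwistsProportion.BSDThree k x) X ≤
      count (m := m) (fun x => InFamily S k x ∧ ShaTrivial k x) X := by
    unfold count
    refine Nat.card_le_card_of_injective (fun x => (⟨x.1, ⟨x.2.1.1, shaTrivial_of x.2.1.2⟩, x.2.2⟩ :
      {x : Datum m // (InFamily S k x ∧ ShaTrivial k x) ∧ ∏ j, nrm (x.1 j) ≤ X})) ?_
    intro x y h
    exact Subtype.ext (Subtype.mk.inj h)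
  exact_mod_cast h8

end Pool.Agent.Results.MP_a43263_nt.ThreePowerTwistsSha
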